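import Pool.Agent.SOR.Stmts2

/-!
# The second order relation (squad SOR): sets with a free action of an abelian group, universal form

Complete proofs in the docstrings.
-/

open scoped BigOperators

noncomputable section

namespace Pool.Agent.SOR

/-! ## 6. From `X` to `Y = X / P` -/

/-- The functions on `X` in the relation: `κ_k` for `T`, `μ_k` for `a`, exact pairs `(μ₁ - η, ν₁)`,
`(μ₂, ν₂ - ζ)` for `(a, a₃)`, `(μ₁, κ₁ + δ)`, `(m, κ₂)` for `(a, T)`, all functions invariant under `P`. -/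
structure Fm {Γ P X : Type} [Group Γ] [CommGroup P] (R : Subring ℚ) (D : Bd Γ)
    (i : Γ →* Equiv.Perm X) (q : P →* Equiv.Perm X) (r₁ r₂ : P → ℚ)
    (κ₁ κ₂ μ₁ μ₂ η ζ δ m : X → ℚ) : Prop where
  pinv : ∀ F ∈ ({κ₁, κ₂, μ₁, μ₂, η, ζ, δ, m} : Set (X → ℚ)), ∀ p x, F (q p x) = F x
  ainv : ∀ F ∈ ({κ₁, κ₂, μ₁, μ₂, η, ζ, δ, m} : Set (X → ℚ)), ∀ x, F (i D.a x) = F x
  binv : ∀ F ∈ ({κ₁, κ₂} : Set (X → ℚ)), ∀ x, F (i D.b x) = F x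
  Ainv : ∀ F ∈ ({μ₁, μ₂, η, ζ} : Set (X → ℚ)), ∀ x, F (i D.A x) = F x
  A'inv : ∀ F ∈ ({μ₁, μ₂} : Set (X → ℚ)), ∀ x, F (i D.A' x) = F x
  Tinv : ∀ F ∈ ({δ, m} : Set (X → ℚ)), ∀ x, F (i D.T x) = F x
  k₁ : ∀ x (k : ℤ) p, i (D.T ^ k) x = q p x → r₁ p - k * κ₁ x ∈ R
  k₂ : ∀ x (k : ℤ) p, i (D.T ^ k) x = q p x → r₂ p - k * κ₂ x ∈ R
  m₁ : ∀ x (k : ℤ) p, i (D.a ^ k) x = q p x → r₁ p - k * μ₁ x ∈ R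
  m₂ : ∀ x (k : ℤ) p, i (D.a ^ k) x = q p x → r₂ p - k * μ₂ x ∈ R
  e₁ : ∀ x (k l : ℤ) p, i (D.a ^ k * D.a3 ^ l) x = q p x →
    r₁ p - k * (μ₁ x - η x) - l * μ₁ (i D.B⁻¹ x) ∈ R
  e₂ : ∀ x (k l : ℤ) p, i (D.a ^ k * D.a3 ^ l) x = q p x →
    r₂ p - k * μ₂ x - l * (μ₂ (i D.B⁻¹ x) - ζ x) ∈ R
  t₁ : ∀ x (k l : ℤ) p, i (D.a ^ k * D.T ^ l) x = q p x → r₁ p - k * μ₁ x - l * (κ₁ x + δ x) ∈ R
  t₂ : ∀ x (k l : ℤ) p, i (D.a ^ k * D.T ^ l) x = q p x → r₂ p - k * m x - l * κ₂ x ∈ R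

/-- XRE: the relation for a finite set `X` with a free action of the finite abelian group `P`.

Proof.  `Y = X / P`, `σ : Y → X` a section.  `Γ` acts on `Y`, `T*` trivially.  For `g ∈ Γ`, `y ∈ Y` there is a
unique `c(g, y) ∈ P` with `g σ(y) = c(g, y) σ(g y)`; `c(g h, y) = c(g, h y) c(h, y)`, so `ρ_k(g, y) =
r_k(c(g, y))` is a cocycle modulo `R`; if `g y = y` then `g σ(y) = c(g, y) σ(y)`; `c(T*, y) = p₀`.  The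
functions `F` on `X` are invariant under `P`: `F̄(y) = F(σ(y))`, `F̄(g y) = F(g σ(y))`.  All hypotheses of
`RelStmt` follow (`η`, `ζ`, `μ`, `ν` are invariant under `a`, `A`, so under `a₃`; `ν(x) = μ(B⁻¹ x)` is
invariant under `A`, `a₃` because `B⁻¹ A B = A'`, `B⁻¹ a₃ B = a`, and under `a = A a₃`; `B⁻¹ y` has the
representative `B⁻¹ σ(y)` up to `P`).  `∑_X F = |P| ∑_Y F̄` for every invariant function `F` (the action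
is free). -/
def XreStmt : Prop := ∀ (Γ P X : Type) [Group Γ] [CommGroup P] [Finite P] [Fintype X]
  (R : Subring ℚ) (D : Bd Γ) (i : Γ →* Equiv.Perm X) (q : P →* Equiv.Perm X) (p₀ : P),
  (∀ g p x, i g (q p x) = q p (i g x)) → i D.Ts = q p₀ → (∀ p x, q p x = x → p = 1) →
  ∀ r₁ r₂ : P → ℚ, (∀ p p', r₁ (p * p') - r₁ p - r₁ p' ∈ R) →
  (∀ p p', r₂ (p * p') - r₂ p - r₂ p' ∈ R) →
  ∀ κ₁ κ₂ μ₁ μ₂ η ζ δ m : X → ℚ, Fm R D i q r₁ r₂ κ₁ κ₂ μ₁ μ₂ η ζ δ m →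
  (∑ x, (r₁ p₀ * r₂ p₀ - κ₁ x * κ₂ x -
    12 * ((μ₁ x - μ₁ (i D.B⁻¹ x)) * (μ₂ x - μ₂ (i D.B⁻¹ x)) + η x * ζ x -
      (μ₂ x - m x) * δ x + (r₁ p₀ - κ₁ x) * μ₂ x + μ₁ x * (r₂ p₀ - κ₂ x)))) / Nat.card P ∈ R

/-- XSG: the same with an additional permutation `σ` of order prime to `ℓ`, for `R = Rl ℓ` and an
`ℓ`-group `P`.

Proof.  `σ` commutes with `Γ` and `P`.  For `d > 0` let `X_d` be the set of the `x` whose `σ`-orbit has `d`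
elements and `X̄_d = X_d / ⟨σ⟩`; `Γ` and `P` act on it and `T*` acts as `p₀`.  Let `N > 0` be a multiple of the
order of `σ` with `N ≡ 1` modulo a power `ℓ ^ f` which kills `P` and such that `ℓ ^ f` times every value of the
functions is in `Rl ℓ`.  If `g x = p σ ^ j x` (`g ∈ Γ`) then `g ^ N x = p ^ N x = p x`.  For `g = 1`: `p x = x`,
`p = 1`, so `P` acts freely on `X̄_d`.  For `g = T ^ k`: `r_k(p) - k N κ_k(x) ∈ R`, and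
`(N - 1) k κ_k(x) ∈ R`; in the same way for the other congruences: all hypotheses of XRE hold for `X̄_d`
and the functions induced there.  `∑_X F = ∑_d d ∑_(X̄_d) F`.  XRE for every `d`. -/
def XsgStmt : Prop := ∀ (ℓ : ℕ) [Fact ℓ.Prime] (Γ P X : Type) [Group Γ] [CommGroup P] [Finite P]
  [Fintype X] (D : Bd Γ) (i : Γ →* Equiv.Perm X) (q : P →* Equiv.Perm X) (p₀ : P)
  (σ : Equiv.Perm X), IsPGroup ℓ P → (∀ g p x, i g (q p x) = q p (i g x)) →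
  (∀ g x, i g (σ x) = σ (i g x)) → (∀ p x, q p (σ x) = σ (q p x)) → (orderOf σ).Coprime ℓ →
  i D.Ts = q p₀ * σ → (∀ p x, q p x = x → p = 1) →
  ∀ r₁ r₂ : P → ℚ, (∀ p p', r₁ (p * p') - r₁ p - r₁ p' ∈ Rl ℓ) →
  (∀ p p', r₂ (p * p') - r₂ p - r₂ p' ∈ Rl ℓ) →
  ∀ κ₁ κ₂ μ₁ μ₂ η ζ δ m : X → ℚ, Fm (Rl ℓ) D i q r₁ r₂ κ₁ κ₂ μ₁ μ₂ η ζ δ m →
  (∀ F ∈ ({κ₁, κ₂, μ₁, μ₂, η, ζ, δ, m} : Set (X → ℚ)), ∀ x, F (σ x) = F x) →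
  (∑ x, (r₁ p₀ * r₂ p₀ - κ₁ x * κ₂ x -
    12 * ((μ₁ x - μ₁ (i D.B⁻¹ x)) * (μ₂ x - μ₂ (i D.B⁻¹ x)) + η x * ζ x -
      (μ₂ x - m x) * δ x + (r₁ p₀ - κ₁ x) * μ₂ x + μ₁ x * (r₂ p₀ - κ₂ x)))) / Nat.card P ∈ Rl ℓ

/-! ## 7. Universal functions of the types -/

/-- LEX: the rational numbers for a type.

Proof.  All elements are written with integers: for the type of `x` (`s`, `t`, the action of `Q` free at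
`x`, `s ^ n = t ^ n = 1`) the set `Λ = {(k, l, p) : s ^ k t ^ l x = p x}` is a subgroup of `ℤ × ℤ × Q` which
contains `(n, 0, 1)`, `(0, n, 1)` and in which `p` is determined by `(k, l)`.  (i) `k₀ > 0` minimal with
`(k₀, 0, p₀) ∈ Λ`: the `(k, 0, p) ∈ Λ` are the powers `(c k₀, 0, p₀ ^ c)`, `μ = r(p₀)/k₀` has
`r(p₀ ^ c) - c k₀ μ ≡ c r(p₀) - c r(p₀) = 0`.  If `(1, 0, p) ∈ Λ` then `k₀ = 1`, `μ = r(p)`.  If `r(p) ∈ R` for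
all of them, `μ = 0` is possible.  (ii) let `ν` be a number for the `(0, l, p) ∈ Λ`; `k₀ > 0` minimal such
that `(k₀, l₀, p₀) ∈ Λ` for some `l₀`, `p₀`, and `α = (r(p₀) - l₀ ν)/k₀`: an element `(k, l, p)` of `Λ` is
`(k₀, l₀, p₀) ^ c (0, l', p')`, so `r(p) - k α - l ν ≡ c (r(p₀) - k₀ α - l₀ ν) + (r(p') - l' ν) ≡ 0`. -/
def LexStmt : Prop := ∀ (Γ X P : Type) [Group Γ] [CommGroup P] [Finite P] (R : Subring ℚ) (n : ℕ),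
  0 < n → ∀ (Q : Subgroup P) (i : Γ →* Equiv.Perm X) (q : Q →* Equiv.Perm X) (s t : Γ),
  (∀ g p x, i g (q p x) = q p (i g x)) → s * t = t * s → i (s ^ n) = 1 → i (t ^ n) = 1 →
  ∀ x ∈ Gd q, ∀ r : P → ℚ, (∀ p p', r (p * p') - r p - r p' ∈ R) →
  (∀ p : Q, ∀ k : ℤ, (Multiplicative.ofAdd (k : ZMod n), (p : P)) ∈ ty1 n i q s x ↔
    i (s ^ k) x = q p x) ∧
  (∀ p : Q, ∀ k l : ℤ, (Multiplicative.ofAdd (k : ZMod n), Multiplicative.ofAdd (l : ZMod n),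
    (p : P)) ∈ ty2 n i q s t x ↔ i (s ^ k * t ^ l) x = q p x) ∧
  (∃ μ : ℚ, ∀ (k : ℤ) (p : P), (Multiplicative.ofAdd (k : ZMod n), p) ∈ ty1 n i q s x →
    r p - k * μ ∈ R) ∧
  (∀ p : P, (Multiplicative.ofAdd (1 : ZMod n), p) ∈ ty1 n i q s x →
    ∀ (k : ℤ) (p' : P), (Multiplicative.ofAdd (k : ZMod n), p') ∈ ty1 n i q s x →
      r p' - k * r p ∈ R) ∧
  ∀ ν : ℚ, (∀ (l : ℤ) (p : P), (Multiplicative.ofAdd (l : ZMod n), p) ∈ ty1 n i q t x →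
    r p - l * ν ∈ R) → ∃ α : ℚ, ∀ (k l : ℤ) (p : P),
      (Multiplicative.ofAdd (k : ZMod n), Multiplicative.ofAdd (l : ZMod n), p) ∈ ty2 n i q s t x →
        r p - k * α - l * ν ∈ R

open Classical in
/-- UNI: THE UNIVERSAL FORM OF THE SECOND ORDER RELATION.  The functions `Φ`, `Ψ`, `K` of the types of the
points depend only on `ℓ`, `e`, `P`, `r₁`, `r₂`, `p₀`.

Proof.  `n = ℓ ^ e`.  For a set `U ⊆ Z × P` and `r = r₁, r₂` let `mu(U)` be: `r(p)` if `p` is the only element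
with `(1, p) ∈ U`; otherwise `0` if `r(p) ∈ R` for all `(k, p) ∈ U`; otherwise some number `μ` with
`r(p) - k μ ∈ R` for all `(k, p) ∈ U` (`k` an integer) if there is one, and `0` if there is none.  In all
cases `mu(U) = 0` if `r ∈ R` on `U` (because `r(p) ∈ R` implies `r(p) = 0`), and for the type `ty1` of a point
of `Gd q` the congruences hold (LEX).  For `Λ ⊆ Z × Z × P` let `Λ_s = {(k, p) : (k, 0, p) ∈ Λ}`,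
`Λ_t = {(l, p) : (0, l, p) ∈ Λ}`, `μ_k = mu_k(Λ_s)`, `ν_k = mu_k(Λ_t)`; `α₁(Λ)` is a number with
`r₁(p) - k α₁ - l ν₁ ∈ R` on `Λ` (`0` if `r₁ ∈ R` on `Λ` or if there is none), `β₂(Λ)` a number with
`r₂(p) - k μ₂ - l β₂ ∈ R`, `β₁(Λ)` one with `r₁(p) - k μ₁ - l β₁ ∈ R`, `α₂(Λ)` one with
`r₂(p) - k α₂ - l ν₂ ∈ R`.  `Φ(Λ) = (μ₁ - ν₁)(μ₂ - ν₂) + (μ₁ - α₁)(ν₂ - β₂)`;
`Ψ(Λ) = - (μ₂ - α₂)(β₁ - ν₁) + (r₁(p₀) - ν₁) μ₂ + μ₁ (r₂(p₀) - ν₂)`, `K(U) = mu₁(U) mu₂(U)`; take `β₁ = ν₁`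
whenever this is possible, and `Ψ(Λ) = 0` if `r₁(p) - l ν₁ ∈ R` is not true on `Λ_t`.  The vanishing
statements are clear: in the second statement about `Ψ` (`(k, l, p) ∈ Λ` implies `(0, l, p) ∈ Λ`, `r_k ∈ R` on
`Λ_s`) one has `μ₁ = μ₂ = 0` and `β₁ = ν₁`.  For `X`: `Γ`, `σ` and `Q` act on `Gd q`, `Q` freely.  `s = a ^ M`, `t = a₃ ^ M`, `τ = T ^ M`.
Put `μ_k(x) = mu_k(ty1 s x)`, `κ_k(x) = mu_k(ty1 τ x)`, `η = μ₁ - α₁`, `ζ = ν₂ - β₂` of `ty2 s t x`,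
`δ = β₁ - κ₁`, `m = α₂` of `ty2 s τ x` (`(ty2 s t x)_s = ty1 s x`, `(ty2 s t x)_t = ty1 t x`).  The type of `x` for `s` is
invariant under all elements which commute with `a` and `Q`; `B a B⁻¹ = a₃`, so `ty1 s (B⁻¹ x) = ty1 t x`
and `ν_k(x) = μ_k(B⁻¹ x)`.  `Fm` for `a`, `a₃`, `T` follows from the congruences for `s`, `t`, `τ`: if
`a ^ k a₃ ^ l x = p x` then `s ^ k t ^ l x = p ^ M x`, and `r(p ^ M) ≡ M r(p) ≡ r(p)` because `M - 1` is divisible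
by `ℓ ^ e` and `ℓ ^ e r(p) ∈ R`.  XSG for `Q` and `Gd q` (all functions are invariant under `σ`). -/
def UniStmt : Prop := ∀ (ℓ : ℕ) [Fact ℓ.Prime] (e : ℕ) (P : Type) [CommGroup P] [Finite P],
  IsPGroup ℓ P → ∀ (r₁ r₂ : P → ℚ) (p₀ : P), (∀ p p', r₁ (p * p') - r₁ p - r₁ p' ∈ Rl ℓ) →
  (∀ p p', r₂ (p * p') - r₂ p - r₂ p' ∈ Rl ℓ) → (∀ p, (ℓ : ℚ) ^ e * r₁ p ∈ Rl ℓ) →
  (∀ p, (ℓ : ℚ) ^ e * r₂ p ∈ Rl ℓ) → (∀ p, r₁ p ∈ Rl ℓ → r₁ p = 0) →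
  (∀ p, r₂ p ∈ Rl ℓ → r₂ p = 0) →
  ∃ (Φ Ψ : Set (L2 (ℓ ^ e) P) → ℚ) (K : Set (L1 (ℓ ^ e) P) → ℚ),
    (∀ Λ, (∀ g ∈ Λ, r₁ g.2.2 ∈ Rl ℓ) → Φ Λ = 0) ∧ (∀ Λ, (∀ g ∈ Λ, r₂ g.2.2 ∈ Rl ℓ) → Φ Λ = 0) ∧
    (∀ Λ, (∀ g ∈ Λ, r₁ g.2.2 ∈ Rl ℓ) → (∀ g ∈ Λ, r₂ g.2.2 ∈ Rl ℓ) → Ψ Λ = 0) ∧
    (∀ Λ, (∀ g ∈ Λ, ((1 : Multiplicative (ZMod (ℓ ^ e))), g.2.1, g.2.2) ∈ Λ) →
      (∀ g ∈ Λ, g.2.1 = 1 → r₁ g.2.2 ∈ Rl ℓ ∧ r₂ g.2.2 ∈ Rl ℓ) → Ψ Λ = 0) ∧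
    (∀ U, (∀ g ∈ U, r₁ g.2 ∈ Rl ℓ) → K U = 0) ∧ (∀ U, (∀ g ∈ U, r₂ g.2 ∈ Rl ℓ) → K U = 0) ∧
    (∀ U p, (∀ p', (Multiplicative.ofAdd (1 : ZMod (ℓ ^ e)), p') ∈ U ↔ p' = p) →
      K U = r₁ p * r₂ p) ∧
    ∀ (Γ X : Type) [Group Γ] [Fintype X] (D : Bd Γ) (Q : Subgroup P) (q₀ : Q), (q₀ : P) = p₀ →
      ∀ (i : Γ →* Equiv.Perm X) (q : Q →* Equiv.Perm X) (σ : Equiv.Perm X),
      Xa ℓ D Q q₀ i q σ → ∀ M : ℕ, (M : ZMod (ℓ ^ e)) = 1 → i ((D.a ^ M) ^ ℓ ^ e) = 1 → i ((D.a3 ^ M) ^ ℓ ^ e) = 1 →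
      i ((D.T ^ M) ^ ℓ ^ e) = 1 →
      (∑ x ∈ Finset.univ.filter (· ∈ Gd q), (r₁ p₀ * r₂ p₀ - K (ty1 (ℓ ^ e) i q (D.T ^ M) x) -
        12 * Φ (ty2 (ℓ ^ e) i q (D.a ^ M) (D.a3 ^ M) x) -
        12 * Ψ (ty2 (ℓ ^ e) i q (D.a ^ M) (D.T ^ M) x))) / Nat.card Q ∈ Rl ℓ

/-! ## 8. Möbius inversion, the braid group on triples -/

open Classical in
/-- MOB: Möbius inversion on the subgroups of a finite group `L`.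

Proof.  Define `Φ̂(Λ) = Φ(Λ) - ∑_(Λ' < Λ) Φ̂(Λ')` by induction on `|Λ|`.  (iii) by the same induction.  (iv)
`∑_x w(x) Φ(St x) = ∑_x w(x) ∑_(Λ ≤ St x) Φ̂(Λ)`, and `Λ ≤ St x` means that `x` is fixed by `Λ`. -/
def MobStmt : Prop := ∀ (L : Type) [Group L] [Fintype (Subgroup L)] (Φ : Subgroup L → ℚ),
  ∃ Φ' : Subgroup L → ℚ, (∀ Λ, ∑ Λ' ∈ Finset.univ.filter (· ≤ Λ), Φ' Λ' = Φ Λ) ∧
    (∀ S : AddSubgroup ℚ, (∀ Λ, Φ Λ ∈ S) → ∀ Λ, Φ' Λ ∈ S) ∧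
    (∀ Λ, (∀ Λ' ≤ Λ, Φ Λ' = 0) → Φ' Λ = 0) ∧
    ∀ (X : Type) [Fintype X] (St : X → Subgroup L) (w : X → ℂ),
      ∑ x, w x * Φ (St x) = ∑ Λ, (Φ' Λ : ℂ) * ∑ x ∈ Finset.univ.filter (fun x => Λ ≤ St x), w x

/-- the set of the triples `(x, y, u)` with `x y x⁻¹ y⁻¹ = g₁ u g₂ u⁻¹` -/
def Tr (G : Type) [Group G] (g₁ g₂ : G) : Type :=
  {z : G × G × G // z.1 * z.2.1 * z.1⁻¹ * z.2.1⁻¹ = g₁ * z.2.2 * g₂ * z.2.2⁻¹}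

/-- BRX: the braid group on triples.

Proof.  `a (x, y, u) = (x, y x, u)`, `b (x, y, u) = (x y⁻¹, y, u)`, `a₃ (x, y, u) = (x, g₁⁻¹ x y, g₁⁻¹ x u)` preserve the
equation and are bijective; `A = a a₃⁻¹ : (x, y, u) ↦ (x, x⁻¹ g₁ y x, x⁻¹ g₁ u)`, `B = b A⁻¹ b⁻¹ : (x, y, u) ↦
(x y x y⁻¹ x⁻¹ g₁, g₁⁻¹ x y x⁻¹, g₁⁻¹ x y u)`.  `T = (a b) ^ 6 : (x, y, u) ↦ (κ⁻¹ x κ, κ⁻¹ y κ, u)` with
`κ = x y x⁻¹ y⁻¹`: `(a b)(x, y) = (x y⁻¹, y x y⁻¹)`, and `(a b) ^ 3 (x, y) = (y x⁻¹ y⁻¹, ...)` etc. (compute; a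
computer check of all formulas in the symmetric group was done).  `T* (x, y, u) = (g₁⁻¹ x g₁, g₁⁻¹ y g₁,
g₁⁻¹ u g₂)`.  The relations `r1 - r10` are identities between words in `x, y, u, g₁`, for `r6` use
`g₂ = u⁻¹ g₁⁻¹ κ u`.  The elements `p = (p₁, p₂)`, `p₁` in the centraliser of `g₁`, `p₂` in the centraliser of
`g₂`, act by `(p₁ x p₁⁻¹, p₁ y p₁⁻¹, p₁ u p₂⁻¹)`, and commute with `a`, `b`, `A`, `B`. -/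
def BrxStmt : Prop := ∀ (G : Type) [Group G] (g₁ g₂ : G),
  ∃ D : Bd (Equiv.Perm (Tr G g₁ g₂)),
    (∀ z, (D.a z).1 = (z.1.1, z.1.2.1 * z.1.1, z.1.2.2)) ∧
    (∀ z, (D.b z).1 = (z.1.1 * z.1.2.1⁻¹, z.1.2.1, z.1.2.2)) ∧
    (∀ z, (D.a3 z).1 = (z.1.1, g₁⁻¹ * z.1.1 * z.1.2.1, g₁⁻¹ * z.1.1 * z.1.2.2)) ∧
    (∀ z, (D.T z).1 = ((z.1.1 * z.1.2.1 * z.1.1⁻¹ * z.1.2.1⁻¹)⁻¹ * z.1.1 *
        (z.1.1 * z.1.2.1 * z.1.1⁻¹ * z.1.2.1⁻¹),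
      (z.1.1 * z.1.2.1 * z.1.1⁻¹ * z.1.2.1⁻¹)⁻¹ * z.1.2.1 *
        (z.1.1 * z.1.2.1 * z.1.1⁻¹ * z.1.2.1⁻¹), z.1.2.2)) ∧
    (∀ z, (D.Ts z).1 = (g₁⁻¹ * z.1.1 * g₁, g₁⁻¹ * z.1.2.1 * g₁, g₁⁻¹ * z.1.2.2 * g₂)) ∧
    (∀ z (k : ℤ), ((D.a ^ k) z).1 = (z.1.1, z.1.2.1 * z.1.1 ^ k, z.1.2.2)) ∧
    (∀ z (k : ℤ), ((D.a3 ^ k) z).1 =
      (z.1.1, (g₁⁻¹ * z.1.1) ^ k * z.1.2.1, (g₁⁻¹ * z.1.1) ^ k * z.1.2.2)) ∧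
    (∀ z (k : ℤ), ((D.T ^ k) z).1 = ((z.1.1 * z.1.2.1 * z.1.1⁻¹ * z.1.2.1⁻¹) ^ (-k) * z.1.1 *
        (z.1.1 * z.1.2.1 * z.1.1⁻¹ * z.1.2.1⁻¹) ^ k,
      (z.1.1 * z.1.2.1 * z.1.1⁻¹ * z.1.2.1⁻¹) ^ (-k) * z.1.2.1 *
        (z.1.1 * z.1.2.1 * z.1.1⁻¹ * z.1.2.1⁻¹) ^ k, z.1.2.2)) ∧
    ∀ (V₁ V₂ : Subgroup G), (∀ v ∈ V₁, v * g₁ = g₁ * v) → (∀ v ∈ V₂, v * g₂ = g₂ * v) →
      ∃ q : V₁ × V₂ →* Equiv.Perm (Tr G g₁ g₂),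
        (∀ p z, (q p z).1 = (p.1 * z.1.1 * (p.1 : G)⁻¹, p.1 * z.1.2.1 * (p.1 : G)⁻¹,
          p.1 * z.1.2.2 * (p.2 : G)⁻¹)) ∧
        (∀ p z, D.a (q p z) = q p (D.a z)) ∧ (∀ p z, D.b (q p z) = q p (D.b z)) ∧
        (∀ p z, D.A (q p z) = q p (D.A z)) ∧ (∀ p z, D.B (q p z) = q p (D.B z)) ∧
        ∀ p z, D.Ts (q p z) = q p (D.Ts z)

end Pool.Agent.SOR
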