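import Mathlib

/-!
# The second order relation (squad SOR): definitions

Finite sets with an action of the braid group `B₄` and two cocycles with values in `ℚ / R`
(`R` a subring of `ℚ`).  Everything is written with functions with values in `ℚ` and congruences
modulo `R`.

`Fr` is the free group on `A`, `B`; `C = B⁻¹ A⁻¹ B A`.  The generators `a`, `b` of `B₃` act on it by
`A ↦ A`, `B ↦ A B` and by `A ↦ B⁻¹`, `B ↦ B A B`; both fix `C`, and `(a b) ^ 6` acts as the conjugation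
with `C`.
-/

open scoped BigOperators

noncomputable section

namespace Pool.Agent.SOR

/-- the free group on `A` (`false`) and `B` (`true`) -/
abbrev Fr : Type := FreeGroup Bool

/-- the letter `A` -/
def lA : Fr := FreeGroup.of false

/-- the letter `B` -/
def lB : Fr := FreeGroup.of true

/-- `C = B⁻¹ A⁻¹ B A` -/
def lC : Fr := lB⁻¹ * lA⁻¹ * lB * lA

/-- `A' = B⁻¹ A B` -/
def lA' : Fr := lB⁻¹ * lA * lB

/-- `A ↦ A`, `B ↦ A B` -/
def fa : Fr →* Fr := FreeGroup.lift (fun t => if t then lA * lB else lA)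

/-- `A ↦ A`, `B ↦ A⁻¹ B` -/
def fai : Fr →* Fr := FreeGroup.lift (fun t => if t then lA⁻¹ * lB else lA)

/-- `A ↦ B⁻¹`, `B ↦ B A B` -/
def fb : Fr →* Fr := FreeGroup.lift (fun t => if t then lB * lA * lB else lB⁻¹)

/-- `A ↦ A B A`, `B ↦ A⁻¹` -/
def fbi : Fr →* Fr := FreeGroup.lift (fun t => if t then lA⁻¹ else lA * lB * lA)

theorem fa_A : fa lA = lA := by simp [fa, lA]
theorem fa_B : fa lB = lA * lB := by simp [fa, lB]
theorem fai_A : fai lA = lA := by simp [fai, lA]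
theorem fai_B : fai lB = lA⁻¹ * lB := by simp [fai, lB]
theorem fb_A : fb lA = lB⁻¹ := by simp [fb, lA]
theorem fb_B : fb lB = lB * lA * lB := by simp [fb, lB]
theorem fbi_A : fbi lA = lA * lB * lA := by simp [fbi, lA]
theorem fbi_B : fbi lB = lA⁻¹ := by simp [fbi, lB]

theorem hom_ext {G : Type*} [Monoid G] {f g : Fr →* G} (h1 : f lA = g lA) (h2 : f lB = g lB) :
    f = g := by
  ext t
  cases t
  · exact h1
  · exact h2

/-- the automorphism `A ↦ A`, `B ↦ A B` -/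
def pa : MulAut Fr := MonoidHom.toMulEquiv fa fai
  (hom_ext (by simp [fa_A, fai_A]) (by simp [fa_B, fai_A, fai_B]))
  (hom_ext (by simp [fa_A, fai_A]) (by simp [fa_B, fa_A, fai_B]))

/-- the automorphism `A ↦ B⁻¹`, `B ↦ B A B` -/
def pb : MulAut Fr := MonoidHom.toMulEquiv fb fbi
  (hom_ext (by simp [fb_A, fbi_B]) (by simp [fb_B, fbi_A, fbi_B, mul_assoc]))
  (hom_ext (by simp [fb_A, fb_B, fbi_A, mul_assoc]) (by simp [fb_A, fbi_B]))

section coc

variable {H Y : Type} [Group H]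

/-- exact cocycles -/
def Cx (i : H →* Equiv.Perm Y) (u : H → Y → ℚ) : Prop :=
  ∀ g h y, u (g * h) y = u g (i h y) + u h y

/-- cocycles modulo `R` -/
def Cr (R : Subring ℚ) (i : H →* Equiv.Perm Y) (u : H → Y → ℚ) : Prop :=
  ∀ g h y, u (g * h) y - u g (i h y) - u h y ∈ R

/-- the coboundary of the function `f` -/
def dl (i : H →* Equiv.Perm Y) (f : Y → ℚ) (g : H) (y : Y) : ℚ := f (i g y) - f y

/-- `θ` is a primitive of the cup product of `u` and `v` -/
def Th (i : H →* Equiv.Perm Y) (u v θ : H → Y → ℚ) : Prop :=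
  ∀ g h y, θ (g * h) y = θ g (i h y) + θ h y + u g (i h y) * v h y

end coc

section fr

variable {Y : Type} [Fintype Y]

open Classical in
/-- The pairing `I(u, v) = ∑ θ(C, y)` of two exact cocycles of the free group, `θ` a primitive of their
cup product with `θ(A, ·) = θ(B, ·) = 0`. -/
def Iv (i : Fr →* Equiv.Perm Y) (u v : Fr → Y → ℚ) : ℚ :=
  if h : ∃ θ, Th i u v θ ∧ (∀ y, θ lA y = 0) ∧ (∀ y, θ lB y = 0) then ∑ y, h.choose lC y else 0

/-- the transport of a function by an automorphism of the free group and a permutation -/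
def tw {Y : Type} (φ : MulAut Fr) (π : Equiv.Perm Y) (u : Fr → Y → ℚ) (w : Fr) (y : Y) : ℚ :=
  u (φ⁻¹ w) (π⁻¹ y)

/-- The data for `τ`: `φ`, `π` are compatible and fix `C`, the cocycles `x₁`, `x₂` are moved by `φ`, `π`
to `x₁ + δ g₁`, `x₂ + δ g₂` modulo `R`, `g₂` is invariant under `C` (and `g₁` modulo `R`). -/
structure Ad (R : Subring ℚ) (i : Fr →* Equiv.Perm Y) (x₁ x₂ : Fr → Y → ℚ) (h₁ h₂ : Y → ℚ)
    (φ : MulAut Fr) (π : Equiv.Perm Y) (g₁ g₂ : Y → ℚ) : Prop where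
  act : ∀ w y, π (i w y) = i (φ w) (π y)
  fixC : φ lC = lC
  inv₁ : ∀ y, h₁ (π y) = h₁ y
  inv₂ : ∀ y, h₂ (π y) = h₂ y
  tr₁ : ∀ w y, tw φ π x₁ w y - x₁ w y - dl i g₁ w y ∈ R
  tr₂ : ∀ w y, tw φ π x₂ w y - x₂ w y - dl i g₂ w y ∈ R
  c₁ : ∀ y, g₁ (i lC y) - g₁ y ∈ R
  c₂ : ∀ y, g₂ (i lC y) = g₂ y

/-- the basic data: `x₁`, `x₂` exact cocycles, with value `h₁`, `h₂` at `C` modulo `R` -/
structure Bs (R : Subring ℚ) (i : Fr →* Equiv.Perm Y) (x₁ x₂ : Fr → Y → ℚ) (h₁ h₂ : Y → ℚ) :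
    Prop where
  ex₁ : Cx i x₁
  ex₂ : Cx i x₂
  hc₁ : ∀ y, h₁ (i lC y) = h₁ y
  hc₂ : ∀ y, h₂ (i lC y) = h₂ y
  xc₁ : ∀ y, x₁ lC y - h₁ y ∈ R
  xc₂ : ∀ y, x₂ lC y - h₂ y ∈ R

/-- the cocycle `ε` -/
def eps (i : Fr →* Equiv.Perm Y) (x₂ : Fr → Y → ℚ) (φ : MulAut Fr) (π : Equiv.Perm Y)
    (g₂ : Y → ℚ) (w : Fr) (y : Y) : ℚ := tw φ π x₂ w y - x₂ w y - dl i g₂ w y

/-- the number `τ` -/
def tau (i : Fr →* Equiv.Perm Y) (x₁ x₂ : Fr → Y → ℚ) (h₁ h₂ : Y → ℚ) (φ : MulAut Fr)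
    (π : Equiv.Perm Y) (g₁ g₂ : Y → ℚ) : ℚ :=
  Iv i (tw φ π x₁) (eps i x₂ φ π g₂) - ∑ y, h₁ y * g₂ y - ∑ y, g₁ y * (h₂ y - x₂ lC y)

/-- the average over the orbits of the group generated by `s` and `t` -/
def av {Y : Type} (s t : Equiv.Perm Y) (f : Y → ℚ) (y : Y) : ℚ :=
  (∑ k ∈ Finset.range (orderOf s), ∑ l ∈ Finset.range (orderOf t), f ((s ^ k * t ^ l) y)) /
    ((orderOf s : ℚ) * orderOf t)

end fr

section bd

variable {Γ Y : Type} [Group Γ]

/-- The generators `a`, `b` of `B₃`, `A`, `B` of the free group and the central element `T*` of `B₄`. -/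
structure Bd (Γ : Type) [Group Γ] where
  /-- the generator `a` -/
  a : Γ
  /-- the generator `b` -/
  b : Γ
  /-- the letter `A` -/
  A : Γ
  /-- the letter `B` -/
  B : Γ
  /-- the central element -/
  Ts : Γ
  r1 : a * b * a = b * a * b
  r2 : a * A = A * a
  r3 : a * B = A * B * a
  r4 : b * A = B⁻¹ * b
  r5 : b * B = B * A * B * b
  r6 : (a * b) ^ 6 = B⁻¹ * A⁻¹ * B * A * Ts
  r7 : a * Ts = Ts * a
  r8 : b * Ts = Ts * b
  r9 : A * Ts = Ts * A
  r10 : B * Ts = Ts * B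

/-- the element `T = (a b) ^ 6` -/
def Bd.T (D : Bd Γ) : Γ := (D.a * D.b) ^ 6

/-- the element `a₃ = A⁻¹ a` -/
def Bd.a3 (D : Bd Γ) : Γ := D.A⁻¹ * D.a

/-- the element `A' = B⁻¹ A B` -/
def Bd.A' (D : Bd Γ) : Γ := D.B⁻¹ * D.A * D.B

/-- the element `C = B⁻¹ A⁻¹ B A` -/
def Bd.C (D : Bd Γ) : Γ := D.B⁻¹ * D.A⁻¹ * D.B * D.A

/-- the homomorphism from the free group -/
def Bd.j (D : Bd Γ) : Fr →* Γ := FreeGroup.lift (fun t => if t then D.B else D.A)

/-- `(p, q)` is an exact pair for the commuting elements `s`, `t` and the cocycle `ρ`. -/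
structure Ex (R : Subring ℚ) (i : Γ →* Equiv.Perm Y) (ρ : Γ → Y → ℚ) (s t : Γ)
    (p q : Y → ℚ) : Prop where
  ps : ∀ y, p (i s y) = p y
  pt : ∀ y, p (i t y) = p y
  qs : ∀ y, q (i s y) = q y
  qt : ∀ y, q (i t y) = q y
  ex : ∀ y (k l : ℤ), i (s ^ k * t ^ l) y = y → ρ (s ^ k * t ^ l) y - k * p y - l * q y ∈ R

/-- `μ` is the holonomy of `s` divided by the length of the cycle. -/
structure Hl (R : Subring ℚ) (i : Γ →* Equiv.Perm Y) (ρ : Γ → Y → ℚ) (s : Γ) (μ : Y → ℚ) :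
    Prop where
  inv : ∀ y, μ (i s y) = μ y
  hol : ∀ y (k : ℤ), i (s ^ k) y = y → ρ (s ^ k) y - k * μ y ∈ R

end bd

section xx

variable {Γ P X : Type} [Group Γ] [CommGroup P]

/-- the rational numbers with denominator prime to `ℓ` -/
def Rl (ℓ : ℕ) [Fact ℓ.Prime] : Subring ℚ where
  carrier := {q | ¬ ℓ ∣ q.den}
  mul_mem' := by
    intro a b ha hb
    have h := Rat.mul_den_dvd a b
    have hp : Nat.Prime ℓ := Fact.out
    intro hd
    rcases (hp.dvd_mul).1 (hd.trans h) with h | h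
    · exact ha h
    · exact hb h
  one_mem' := by
    have hp : Nat.Prime ℓ := Fact.out
    simpa using hp.one_lt.ne'
  add_mem' := by
    intro a b ha hb
    have h := Rat.add_den_dvd a b
    have hp : Nat.Prime ℓ := Fact.out
    intro hd
    rcases (hp.dvd_mul).1 (hd.trans h) with h | h
    · exact ha h
    · exact hb h
  zero_mem' := by
    have hp : Nat.Prime ℓ := Fact.out
    simpa using hp.one_lt.ne'
  neg_mem' := by
    intro a ha
    simpa using ha

/-- A finite set `X` with commuting actions of `Γ` and of the subgroup `Q` of the commutative group `P`;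
`T*` acts as `q₀ σ`, `σ` a permutation of order prime to `ℓ` which commutes with everything. -/
structure Xa (ℓ : ℕ) (D : Bd Γ) (Q : Subgroup P) (q₀ : Q) (i : Γ →* Equiv.Perm X)
    (q : Q →* Equiv.Perm X) (σ : Equiv.Perm X) : Prop where
  comm : ∀ g p x, i g (q p x) = q p (i g x)
  sg : ∀ g x, i g (σ x) = σ (i g x)
  sq : ∀ p x, q p (σ x) = σ (q p x)
  cop : (orderOf σ).Coprime ℓ
  ts : i D.Ts = q q₀ * σ

/-- the elements with trivial stabiliser in `Q` -/
def Gd {Q : Subgroup P} (q : Q →* Equiv.Perm X) : Set X := {x | ∀ p, q p x = x → p = 1}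

/-- the group `Z × Z × P`, `Z` cyclic of order `n` -/
abbrev L2 (n : ℕ) (P : Type) : Type := Multiplicative (ZMod n) × Multiplicative (ZMod n) × P

/-- the group `Z × P`, `Z` cyclic of order `n` -/
abbrev L1 (n : ℕ) (P : Type) : Type := Multiplicative (ZMod n) × P

/-- the type of `x` for the elements `s`, `t`: the set of the `(k, l, p)` with `s ^ k t ^ l x = p x` -/
def ty2 (n : ℕ) {Q : Subgroup P} (i : Γ →* Equiv.Perm X) (q : Q →* Equiv.Perm X) (s t : Γ)
    (x : X) : Set (L2 n P) :=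
  {g | ∃ (k l : ℤ) (p : Q), g = (Multiplicative.ofAdd (k : ZMod n), Multiplicative.ofAdd (l : ZMod n),
    (p : P)) ∧ i (s ^ k * t ^ l) x = q p x}

/-- the type of `x` for the element `s`: the set of the `(k, p)` with `s ^ k x = p x` -/
def ty1 (n : ℕ) {Q : Subgroup P} (i : Γ →* Equiv.Perm X) (q : Q →* Equiv.Perm X) (s : Γ)
    (x : X) : Set (L1 n P) :=
  {g | ∃ (k : ℤ) (p : Q), g = (Multiplicative.ofAdd (k : ZMod n), (p : P)) ∧ i (s ^ k) x = q p x}

end xx

end Pool.Agent.SOR
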