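import Pool.Agent.SOR.Defs

/-!
# The second order relation (squad SOR): the homomorphism `τ`

Complete proofs in the docstrings.  `≡` is congruence modulo the subring `R` of `ℚ` (which is not
mentioned below).  `(g u)` is short for `tw φ π u`: `(g u)(w, y) = u(φ⁻¹ w, π⁻¹ y)`, and `(g f)(y) = f(π⁻¹ y)`
for functions `f` on `Y`.
-/

open scoped BigOperators

noncomputable section

namespace Pool.Agent.SOR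

/-! ## 1. Cocycles of the free group -/

/-- LFT: exact cocycles of the free group are given by their values at `A` and `B`.

Proof.  Existence: the pairs `(π, f)`, `π` a permutation of `Y`, `f : Y → ℚ`, form a group with
`(π, f)(π', f') = (π π', y ↦ f(π' y) + f' y)` (a semidirect product); the homomorphism `Fr → ` this group
with `A ↦ (i A, fA)`, `B ↦ (i B, fB)` has first component `i` and second component `u`.  Uniqueness: induction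
on the word (`FreeGroup.induction_on`): `u(1, y) = 0`, `u(g⁻¹, y) = - u(g, g⁻¹ y)`.  The same induction
gives the statements modulo `R`: (ii) a cocycle modulo `R` (in particular an exact one) whose values at
`A` and `B` are in `R` has all values in `R`, apply it to the difference. -/
def LftStmt : Prop := ∀ (Y : Type) (i : Fr →* Equiv.Perm Y),
  (∀ fA fB : Y → ℚ, ∃ u, Cx i u ∧ (∀ y, u lA y = fA y) ∧ ∀ y, u lB y = fB y) ∧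
  (∀ u v, Cx i u → Cx i v → (∀ y, u lA y = v lA y) → (∀ y, u lB y = v lB y) → u = v) ∧
  ∀ R : Subring ℚ, ∀ u v, Cr R i u → Cr R i v → (∀ y, u lA y - v lA y ∈ R) →
    (∀ y, u lB y - v lB y ∈ R) → ∀ w y, u w y - v w y ∈ R

/-- THX: primitives of cup products.

Proof.  (i) The quadruples `(π, p, q, s)`, `π` a permutation of `Y` and `p q s : Y → ℚ`, form a group with
`(π, p, q, s)(π', p', q', s') = (π π', p∘π' + p', q∘π' + q', s∘π' + s' + (p∘π') q')`, unit `(1, 0, 0, 0)` and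
inverse `(π⁻¹, -p∘π⁻¹, -q∘π⁻¹, -s∘π⁻¹ + (p∘π⁻¹)(q∘π⁻¹))`.  The homomorphism of `Fr` with
`A ↦ (i A, u A, v A, 0)`, `B ↦ (i B, u B, v B, 0)` is `w ↦ (i w, u w, v w, θ w)` (uniqueness in LFT for the
second and third components), and the last component is a primitive.  (ii) The difference of two
primitives is an exact cocycle `c`; `w ↦ ∑ y, c(w, y)` is a homomorphism to `ℚ` (reindex by the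
permutation `i h`), so it is `0` at the commutator `C`.  (iii) If `u`, `v` have values in `R` then
so has every primitive with values in `R` at `A` and `B`: induction on the word; for the inverse
`θ(g⁻¹, g y) = θ(1, y) - θ(g, y) - u(g⁻¹, g y) v(g, y)`, `θ(1, y) = - u(1, y) v(1, y) = 0`. -/
def ThxStmt : Prop := ∀ (Y : Type) [Fintype Y] (i : Fr →* Equiv.Perm Y) (u v : Fr → Y → ℚ),
  Cx i u → Cx i v →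
  (∃ θ, Th i u v θ ∧ (∀ y, θ lA y = 0) ∧ ∀ y, θ lB y = 0) ∧
  (∀ θ θ', Th i u v θ → Th i u v θ' → ∑ y, θ lC y = ∑ y, θ' lC y) ∧
  ∀ R : Subring ℚ, (∀ w y, u w y ∈ R) → (∀ w y, v w y ∈ R) → ∀ θ, Th i u v θ →
    (∀ y, θ lA y ∈ R) → (∀ y, θ lB y ∈ R) → ∀ w y, θ w y ∈ R

/-- IVF: the properties of the pairing `I(u, v)`.

Proof.  By THX `I(u, v) = ∑ θ(C, y)` for EVERY primitive `θ` of `u ∪ v` (this is (i)).  (ii), (iii)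
bilinearity: sums of primitives are primitives of the sum (`u + u'` with `v`, or `u` with `v + v'`).
(iv) `u = δ f`: `θ(g, y) = f(g y) v(g, y)` is a primitive: `f(g h y) v(g h, y) =
f(g h y) v(g, h y) + f(g h y) v(h, y)` and `f(g h y) v(h, y) = f(h y) v(h, y) + (δ f)(g, h y) v(h, y)`.
(v) `v = δ f`: `θ(g, y) = - u(g, y) f(y)`.  (vi) transport: if `θ` is a primitive of `u ∪ v` then `tw φ π θ`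
is one of `tw φ π u ∪ tw φ π v` (`π⁻¹ (i h y) = i(φ⁻¹ h)(π⁻¹ y)`), and `∑ θ(φ⁻¹ C, π⁻¹ y) = ∑ θ(C, y)`;
in the same way `tw φ π u` is an exact cocycle.  (vii) values in `R`: THX (iii). -/
def IvfStmt : Prop := ∀ (Y : Type) [Fintype Y] (i : Fr →* Equiv.Perm Y),
  (∀ u v θ, Cx i u → Cx i v → Th i u v θ → Iv i u v = ∑ y, θ lC y) ∧
  (∀ u u' v, Cx i u → Cx i u' → Cx i v →
    Iv i (fun w y => u w y + u' w y) v = Iv i u v + Iv i u' v) ∧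
  (∀ u v v', Cx i u → Cx i v → Cx i v' →
    Iv i u (fun w y => v w y + v' w y) = Iv i u v + Iv i u v') ∧
  (∀ (f : Y → ℚ) v, Cx i v → Iv i (dl i f) v = ∑ y, f (i lC y) * v lC y) ∧
  (∀ u (f : Y → ℚ), Cx i u → Iv i u (dl i f) = - ∑ y, u lC y * f y) ∧
  (∀ (φ : MulAut Fr) (π : Equiv.Perm Y), (∀ w y, π (i w y) = i (φ w) (π y)) → φ lC = lC →
    ∀ u v, Cx i u → Cx i v → Cx i (tw φ π u) ∧ Iv i (tw φ π u) (tw φ π v) = Iv i u v) ∧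
  ∀ R : Subring ℚ, ∀ u v, Cx i u → Cx i v → (∀ w y, u w y ∈ R) → (∀ w y, v w y ∈ R) → Iv i u v ∈ R

/-- PRG: the pairing with a cocycle which is `0` at `A`.

Proof.  `C = B⁻¹ A⁻¹ B A`.  Take the primitive `θ` with `θ(A) = θ(B) = 0` (THX), `e := v(B, ·)`.  From
`θ(g⁻¹ g, y) = 0`: `θ(A⁻¹, ·) = 0` (as `v(A, ·) = 0`), `θ(B⁻¹, B y) = - u(B⁻¹, B y) e(y) = u(B, y) e(y)`.
`θ(B A, y) = 0`, `v(B A, y) = e(A y)`, `θ(A⁻¹ B A, y) = u(A⁻¹, B A y) e(A y) = - u(A, A⁻¹ B A y) e(A y)`,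
`v(A⁻¹ B A, y) = e(A y)`, `θ(C, y) = u(B, C y) e(C y) - u(A, A⁻¹ B A y) e(A y) - u(B, C y) e(A y)`.  Sum
over `y` (substitute `C y → y`, `A y → y`; `C A⁻¹ = B⁻¹ A⁻¹ B`):
`∑ e(y) (u(B, y) - u(A, A⁻¹ B y) - u(B, B⁻¹ A⁻¹ B y))`, and the bracket is `u(B⁻¹ A⁻¹ B, y)`, because
`u(A⁻¹ B, y) = - u(A, A⁻¹ B y) + u(B, y)` and `A⁻¹ B = B (B⁻¹ A⁻¹ B)`. -/
def PrgStmt : Prop := ∀ (Y : Type) [Fintype Y] (i : Fr →* Equiv.Perm Y) (u v : Fr → Y → ℚ),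
  Cx i u → Cx i v → (∀ y, v lA y = 0) → Iv i u v = ∑ y, v lB y * u lA'⁻¹ y

/-- AUT: the automorphisms `φ_a = pa`, `φ_b = pb`.

Proof.  Compare the values at `A` and `B` (`hom_ext`); all words have length at most `25`, the last
identity `(φ_a φ_b) ^ 6 = ` conjugation by `C` is the longest (compute `(φ_a φ_b)`: `A ↦ φ_a(B⁻¹) =
B⁻¹ A⁻¹`, `B ↦ φ_a(B A B) = A B A A B`; then `(φ_a φ_b) ^ 2`, `^ 3`, the cube, and its square;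
the cube maps `A` and `B` to conjugates of `A⁻¹` and `B⁻¹`). -/
def AutStmt : Prop := pa lC = lC ∧ pb lC = lC ∧ pa lA' = lA' ∧ pa * pb * pa = pb * pa * pb ∧
  (pa * pb) ^ 6 = MulAut.conj lC

/-! ## 2. The homomorphism `τ` -/

/-- TIN: `τ` modulo `R` does not depend on `g₁`, `g₂`.

Proof.  Let `m = g₁' - g₁` and `k = g₂' - g₂`, with values in `R` (`k` is invariant under `C`).
`ε' = ε - δ k`, so `I(g x₁, ε') - I(g x₁, ε) = - I(g x₁, δ k) = ∑ (g x₁)(C, y) k(y)` (IVF (v); `ε` is an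
exact cocycle), `(g x₁)(C, y) = x₁(C, π⁻¹ y) ≡ h₁(π⁻¹ y) = h₁(y)`, so this is `≡ ∑ h₁ k`, which cancels
`- ∑ h₁ (g₂' - g₂)`.  The last term changes by `- ∑ m (h₂ - x₂(C, ·))`, in `R`. -/
def TinStmt : Prop := ∀ (Y : Type) [Fintype Y] (R : Subring ℚ) (i : Fr →* Equiv.Perm Y)
  (x₁ x₂ : Fr → Y → ℚ) (h₁ h₂ : Y → ℚ), Bs R i x₁ x₂ h₁ h₂ → ∀ φ π g₁ g₂ g₁' g₂',
  Ad R i x₁ x₂ h₁ h₂ φ π g₁ g₂ → Ad R i x₁ x₂ h₁ h₂ φ π g₁' g₂' → (∀ y, g₁' y - g₁ y ∈ R) →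
  (∀ y, g₂' y - g₂ y ∈ R) →
  tau i x₁ x₂ h₁ h₂ φ π g₁' g₂' - tau i x₁ x₂ h₁ h₂ φ π g₁ g₂ ∈ R

/-- TMU: `τ` is multiplicative.

Proof.  Let `β = (φ, π, g₁, g₂)`, `β' = (φ', π', g₁', g₂')`, and put `G_k = g_k + β g_k'`
(`(β f)(y) = f(π⁻¹ y)`).  `Ad` for `(φ φ', π π', G₁, G₂)`: `tw (φ φ') (π π') x = tw φ π (tw φ' π' x)`,
`tw φ π (δ f) = δ(β f)`, `C` commutes with `π` (`π (C y) = φ(C) π y = C π y`).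
`ε_(β β') = ε_β + β ε_β'` (exact equality, all are exact cocycles with values in `R`).
`I(β β' x₁, β ε_β') = I(β' x₁, ε_β')` (IVF (vi)).  `I(β β' x₁, ε_β) = I(β x₁, ε_β) + I(β(β' x₁ - x₁), ε_β)`
and `β' x₁ - x₁ = δ g₁' + r` with an exact cocycle `r` with values in `R`, so the last term is
`≡ I(δ(β g₁'), ε_β) = ∑ (β g₁')(C y) ε_β(C, y) ≡ ∑ (β g₁')(y) ε_β(C, y)` (IVF (iv), (vii); `g₁'` is invariant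
under `C` modulo `R`).  With `j = h₂ - x₂(C, ·)` (values in `R`): `ε_β(C, y) = x₂(C, π⁻¹ y) - x₂(C, y) -
(g₂(C y) - g₂(y)) = j(y) - (β j)(y)` because `h₂` is invariant.  So this term is
`∑ (β g₁') j - ∑ (β g₁')(β j) = ∑ (β g₁') j - ∑ g₁' j`.  `∑ h₁ (g₂ + β g₂') = ∑ h₁ g₂ + ∑ h₁ g₂'` (`h₁`
is invariant).  The last term of `τ` is `- ∑ (g₁ + β g₁') j`.  Sum: `τ(β) + τ(β')`. -/
def TmuStmt : Prop := ∀ (Y : Type) [Fintype Y] (R : Subring ℚ) (i : Fr →* Equiv.Perm Y)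
  (x₁ x₂ : Fr → Y → ℚ) (h₁ h₂ : Y → ℚ), Bs R i x₁ x₂ h₁ h₂ →
  ∀ (φ : MulAut Fr) (π : Equiv.Perm Y) (g₁ g₂ : Y → ℚ) (φ' : MulAut Fr) (π' : Equiv.Perm Y)
    (g₁' g₂' : Y → ℚ), Ad R i x₁ x₂ h₁ h₂ φ π g₁ g₂ → Ad R i x₁ x₂ h₁ h₂ φ' π' g₁' g₂' →
  Ad R i x₁ x₂ h₁ h₂ (φ * φ') (π * π') (fun y => g₁ y + g₁' (π⁻¹ y)) (fun y => g₂ y + g₂' (π⁻¹ y)) ∧
  tau i x₁ x₂ h₁ h₂ (φ * φ') (π * π') (fun y => g₁ y + g₁' (π⁻¹ y)) (fun y => g₂ y + g₂' (π⁻¹ y)) -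
    tau i x₁ x₂ h₁ h₂ φ π g₁ g₂ - tau i x₁ x₂ h₁ h₂ φ' π' g₁' g₂' ∈ R

/-- TTT: the value of `τ` at `T`: `φ` = conjugation by `C`, `π = C`, `g_k = - (h_k + r_k)`.

Proof.  For an exact cocycle `x`: `x(C⁻¹ w C, C⁻¹ y) = x(w, y) + f(w y) - f(y)`, `f(y) = x(C⁻¹, y) =
- x(C, C⁻¹ y)`.  So `(T x₂) - x₂ - δ g₂ = δ(f + h₂ + r₂)`, and `f(y) + h₂(y) + r₂ = r₂ + j(C⁻¹ y)`,
`j = h₂ - x₂(C, ·)` (`h₂` is invariant under `C`): `ε = δ(j ∘ C⁻¹)`, with values in `R`; in the same way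
for `x₁`: this is `Ad`.  `I(T x₁, δ(j ∘ C⁻¹)) = - ∑ (T x₁)(C, y) j(C⁻¹ y) = - ∑ x₁(C, C⁻¹ y) j(C⁻¹ y) =
- ∑ x₁(C, y) j(y) ≡ - ∑ h₁ j`.  `- ∑ h₁ g₂ = ∑ h₁ (h₂ + r₂)`, `- ∑ g₁ j = ∑ (h₁ + r₁) j`.  Sum:
`∑ h₁ (h₂ + r₂) + r₁ ∑ j`, and `∑ j = ∑ h₂` because `∑ x₂(C, y) = 0` (the sum of an exact cocycle over
`Y` is a homomorphism to `ℚ`, `C` is a commutator).  `h₁ (h₂ + r₂) + r₁ h₂ = (h₁ + r₁)(h₂ + r₂) - r₁ r₂`. -/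
def TttStmt : Prop := ∀ (Y : Type) [Fintype Y] (R : Subring ℚ) (i : Fr →* Equiv.Perm Y)
  (x₁ x₂ : Fr → Y → ℚ) (h₁ h₂ : Y → ℚ), Bs R i x₁ x₂ h₁ h₂ → ∀ r₁ r₂ : ℚ,
  Ad R i x₁ x₂ h₁ h₂ (MulAut.conj lC) (i lC) (fun y => -(h₁ y + r₁)) (fun y => -(h₂ y + r₂)) ∧
  tau i x₁ x₂ h₁ h₂ (MulAut.conj lC) (i lC) (fun y => -(h₁ y + r₁)) (fun y => -(h₂ y + r₂)) -
    ∑ y, ((h₁ y + r₁) * (h₂ y + r₂) - r₁ * r₂) ∈ R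

/-- TAB: twelve times `τ(a)`.

Proof.  Write `β_a = (pa, πa, ga₁, ga₂)` and so on, and products as in TMU.  `τ` of `β_a β_b β_a` and of
`β_b β_a β_b` are `≡ 2 τ(a) + τ(b)` and `≡ 2 τ(b) + τ(a)` (TMU twice); the two products have the same `φ`
and `π` (AUT) and the third components are congruent modulo `R` (hypothesis), so the values are
congruent (TIN): `τ(a) ≡ τ(b)`.  `τ((β_a β_b) ^ 6) ≡ 6 (τ(a) + τ(b)) ≡ 12 τ(a)`; its `φ` is the conjugation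
by `C`, its `π` is `i C`, its third components are `≡ - (h_k + r_k)`: TIN and TTT.  The third components
of `(β_a β_b) ^ n`: `s 0 = 0`, `s (n+1) = (ga_k + gb_k ∘ πa⁻¹) + s n ∘ (πa πb)⁻¹`.  (The unit
`(1, 1, 0, 0)` satisfies `Ad` with `τ = 0`, or start with `n = 1`.) -/
def TabStmt : Prop := ∀ (Y : Type) [Fintype Y] (R : Subring ℚ) (i : Fr →* Equiv.Perm Y)
  (x₁ x₂ : Fr → Y → ℚ) (h₁ h₂ : Y → ℚ), Bs R i x₁ x₂ h₁ h₂ → ∀ r₁ r₂ : ℚ,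
  ∀ (πa πb : Equiv.Perm Y) (ga₁ ga₂ gb₁ gb₂ : Y → ℚ), Ad R i x₁ x₂ h₁ h₂ pa πa ga₁ ga₂ →
  Ad R i x₁ x₂ h₁ h₂ pb πb gb₁ gb₂ → πa * πb * πa = πb * πa * πb → (πa * πb) ^ 6 = i lC →
  (∀ y, (ga₁ y + gb₁ (πa⁻¹ y) + ga₁ ((πa * πb)⁻¹ y)) -
    (gb₁ y + ga₁ (πb⁻¹ y) + gb₁ ((πb * πa)⁻¹ y)) ∈ R) →
  (∀ y, (ga₂ y + gb₂ (πa⁻¹ y) + ga₂ ((πa * πb)⁻¹ y)) -
    (gb₂ y + ga₂ (πb⁻¹ y) + gb₂ ((πb * πa)⁻¹ y)) ∈ R) →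
  (∀ y, (∑ k ∈ Finset.range 6, (ga₁ (((πa * πb)⁻¹ ^ k) y) + gb₁ (πa⁻¹ (((πa * πb)⁻¹ ^ k) y)))) +
    (h₁ y + r₁) ∈ R) →
  (∀ y, (∑ k ∈ Finset.range 6, (ga₂ (((πa * πb)⁻¹ ^ k) y) + gb₂ (πa⁻¹ (((πa * πb)⁻¹ ^ k) y)))) +
    (h₂ y + r₂) ∈ R) →
  12 * tau i x₁ x₂ h₁ h₂ pa πa ga₁ ga₂ - ∑ y, ((h₁ y + r₁) * (h₂ y + r₂) - r₁ * r₂) ∈ R

/-! ## 3. The value of `τ` at `a` -/

/-- The hypotheses of the node formula: `x'_k = x_k + δ f_k` (`k = 1, 2`) are moved by `a` to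
`x'_k - δ μ_k` modulo `R`, `μ_k` is invariant under `a`, `A` and `A'`, `x'₂(A, ·)` is invariant under `a`. -/
structure Nd {Y : Type} (R : Subring ℚ) (i : Fr →* Equiv.Perm Y) (x₁ x₂ : Fr → Y → ℚ)
    (h₁ h₂ : Y → ℚ) (π : Equiv.Perm Y) (f₁ f₂ μ₁ μ₂ g₂ : Y → ℚ) : Prop where
  act : ∀ w y, π (i w y) = i (pa w) (π y)
  i₁ : ∀ y, h₁ (π y) = h₁ y
  i₂ : ∀ y, h₂ (π y) = h₂ y
  a₁ : ∀ y, μ₁ (π y) = μ₁ y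
  a₂ : ∀ y, μ₂ (π y) = μ₂ y
  b₁ : ∀ y, μ₁ (i lA y) = μ₁ y
  b₂ : ∀ y, μ₂ (i lA y) = μ₂ y
  c₁ : ∀ y, μ₁ (i lA' y) = μ₁ y
  c₂ : ∀ y, μ₂ (i lA' y) = μ₂ y
  m₁ : ∀ w y, (x₁ (pa⁻¹ w) (π⁻¹ y) + dl i f₁ (pa⁻¹ w) (π⁻¹ y)) - (x₁ w y + dl i f₁ w y) +
    dl i μ₁ w y ∈ R
  m₂ : ∀ w y, (x₂ (pa⁻¹ w) (π⁻¹ y) + dl i f₂ (pa⁻¹ w) (π⁻¹ y)) - (x₂ w y + dl i f₂ w y) +
    dl i μ₂ w y ∈ R
  gc : ∀ y, g₂ (i lC y) = g₂ y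
  gr : ∀ y, g₂ y + f₂ (π⁻¹ y) - f₂ y + μ₂ y ∈ R
  xi : ∀ y, x₂ lA (π y) + dl i f₂ lA (π y) = x₂ lA y + dl i f₂ lA y

/-- NDI: the change of the gauge.

Proof.  Write `(a f)(y) = f(π⁻¹ y)`, `x'_k = x_k + δ f_k`, `ε' = a x'₂ - x'₂ + δ μ₂`,
`k = g₂ + a f₂ - f₂ + μ₂` (values in `R`), `g₁ = - μ₁ - a f₁ + f₁`, `j = h₂ - x₂(C, ·)` (values in `R`).
`ε = a x₂ - x₂ - δ g₂ = ε' - δ k`, `a x₁ = a x'₁ - δ(a f₁)`.  So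
`I(a x₁, ε) = I(a x'₁, ε') - I(δ(a f₁), ε') - I(a x₁, δ k) =
I(a x'₁, ε') - ∑ (a f₁)(C y) ε'(C, y) + ∑ (a x₁)(C, y) k(y)`, and the last sum is `≡ ∑ h₁ k`
(`x₁(C, π⁻¹ y) ≡ h₁(π⁻¹ y) = h₁(y)`, `pa` fixes `C`).
`- ∑ h₁ g₂ = - ∑ h₁ k + ∑ h₁ (a f₂ - f₂) + ∑ h₁ μ₂ = - ∑ h₁ k + ∑ h₁ μ₂` (`h₁` is invariant).
`- ∑ g₁ j = ∑ μ₁ j + ∑ (a f₁ - f₁) j = ∑ μ₁ j + ∑ (a f₁)(j - a j)`.
`ε'(C, y) = ε(C, y) + k(C y) - k(y)` and `ε(C, y) = j(y) - (a j)(y)` (as in TMU; `g₂` and `h₂` are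
invariant under `C`, `a`).  So with `D(y) = (a f₁)(C y) - (a f₁)(y)` the sum of the terms with `a f₁` is
`- ∑ D (j - a j) + ∑ D k`.  `D ≡ Δ`: `D(y) = f₁(C z) - f₁(z)`, `z = π⁻¹ y`, and
`x'₁(C, z) = x₁(C, z) + f₁(C z) - f₁(z) ≡ h₁(z) + D(y)`, `x'₁(C, z) ≡ x'₁(C, y)` (`m₁` for `w = C`,
`μ₁(C y) = μ₁(y)` as `C = A'⁻¹ A`).  `j - a j` and `k` have values in `R`, so `D` can be replaced by `Δ`,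
and `∑ Δ (j - a j) = 0` because `Δ` is invariant under `π`. -/
def NdiStmt : Prop := ∀ (Y : Type) [Fintype Y] (R : Subring ℚ) (i : Fr →* Equiv.Perm Y)
  (x₁ x₂ : Fr → Y → ℚ) (h₁ h₂ : Y → ℚ), Bs R i x₁ x₂ h₁ h₂ →
  ∀ (π : Equiv.Perm Y) (f₁ f₂ μ₁ μ₂ g₂ : Y → ℚ), Nd R i x₁ x₂ h₁ h₂ π f₁ f₂ μ₁ μ₂ g₂ →
  ∀ Δ : Y → ℚ, (∀ y, Δ (π y) = Δ y) → (∀ y, Δ y - (x₁ lC y + dl i f₁ lC y - h₁ y) ∈ R) →
  tau i x₁ x₂ h₁ h₂ pa π (fun y => - μ₁ y - f₁ (π⁻¹ y) + f₁ y) g₂ -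
    (Iv i (tw pa π (fun w y => x₁ w y + dl i f₁ w y))
        (fun w y => (x₂ (pa⁻¹ w) (π⁻¹ y) + dl i f₂ (pa⁻¹ w) (π⁻¹ y)) - (x₂ w y + dl i f₂ w y) +
          dl i μ₂ w y) +
      ∑ y, h₁ y * μ₂ y + ∑ y, μ₁ y * (h₂ y - x₂ lC y) +
      ∑ y, Δ y * (g₂ y + f₂ (π⁻¹ y) - f₂ y + μ₂ y)) ∈ R

/-- NDJ: the pairing in the new gauge.

Proof.  `ε'` as in NDI, `x'₂ = x₂ + δ f₂`, `ξ = x'₂(A, ·)` (invariant under `a`).  `ε'(A, y) =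
x'₂(A, π⁻¹ y) - x'₂(A, y) + μ₂(A y) - μ₂(y) = 0` (`pa⁻¹ A = A`).  By PRG
`I(a x'₁, ε') = ∑ ε'(B, y) (a x'₁)(A'⁻¹, y)`, and `(a x'₁)(A'⁻¹, y) = x'₁(A'⁻¹, π⁻¹ y) ≡ x'₁(A'⁻¹, y) ≡ Ψ(y)`
(`pa A' = A'`, `m₁`, `c₁`); `ε'(B, y)` is in `R` (`m₂`), so `I ≡ ∑ ε'(B, y) Ψ(y)`.
`pa⁻¹ B = A⁻¹ B`: `ε'(B, y) = x'₂(A⁻¹ B, π⁻¹ y) - x'₂(B, y) + μ₂(B y) - μ₂(y)`,
`x'₂(A⁻¹ B, π⁻¹ y) = - x'₂(A, A⁻¹ B π⁻¹ y) + x'₂(B, π⁻¹ y)` and `A⁻¹ B π⁻¹ y = π⁻¹ B y`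
(`π (A⁻¹ B z) = pa(A⁻¹ B) π z = B π z`), so the first term is `- ξ(π⁻¹ B y) = - ξ(B y)`.  In the sum with the
invariant function `Ψ` the terms `x'₂(B, π⁻¹ y) - x'₂(B, y)` cancel. -/
def NdjStmt : Prop := ∀ (Y : Type) [Fintype Y] (R : Subring ℚ) (i : Fr →* Equiv.Perm Y)
  (x₁ x₂ : Fr → Y → ℚ) (h₁ h₂ : Y → ℚ), Bs R i x₁ x₂ h₁ h₂ →
  ∀ (π : Equiv.Perm Y) (f₁ f₂ μ₁ μ₂ g₂ : Y → ℚ), Nd R i x₁ x₂ h₁ h₂ π f₁ f₂ μ₁ μ₂ g₂ →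
  ∀ Ψ : Y → ℚ, (∀ y, Ψ (π y) = Ψ y) → (∀ y, Ψ y - (x₁ lA'⁻¹ y + dl i f₁ lA'⁻¹ y) ∈ R) →
  Iv i (tw pa π (fun w y => x₁ w y + dl i f₁ w y))
      (fun w y => (x₂ (pa⁻¹ w) (π⁻¹ y) + dl i f₂ (pa⁻¹ w) (π⁻¹ y)) - (x₂ w y + dl i f₂ w y) +
        dl i μ₂ w y) -
    ∑ y, (μ₂ (i lB y) - μ₂ y - (x₂ lA (i lB y) + dl i f₂ lA (i lB y))) * Ψ y ∈ R

/-- NDK: the last terms.

Proof.  (i) `x'₂ = x₂ + δ f₂`; `∑ μ₁(y) x₂(C, y) = ∑ μ₁(y) x'₂(C, y)` because `μ₁` is invariant under `C =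
A'⁻¹ A`.  `x'₂(C, y) = - x'₂(B, C y) - x'₂(A, A⁻¹ B A y) + x'₂(B, A y) + x'₂(A, y)`.  In the sum with `μ₁`
(invariant under `A` and `C`) the two terms with `x'₂(B, ·)` cancel; in the second term put
`w = A⁻¹ B A y`, `μ₁(y) = μ₁(A⁻¹ B⁻¹ A w) = μ₁(B⁻¹ A w) = μ₁(A' B⁻¹ w) = μ₁(B⁻¹ w)`.
(ii) `∑ Δ(y) (f₂(π⁻¹ y) - f₂(y)) = 0` because `Δ` is invariant. -/
def NdkStmt : Prop := ∀ (Y : Type) [Fintype Y] (R : Subring ℚ) (i : Fr →* Equiv.Perm Y)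
  (x₁ x₂ : Fr → Y → ℚ) (h₁ h₂ : Y → ℚ), Bs R i x₁ x₂ h₁ h₂ →
  ∀ (π : Equiv.Perm Y) (f₁ f₂ μ₁ μ₂ g₂ : Y → ℚ), Nd R i x₁ x₂ h₁ h₂ π f₁ f₂ μ₁ μ₂ g₂ →
  (∑ y, μ₁ y * (h₂ y - x₂ lC y) = ∑ y, μ₁ y * h₂ y -
    ∑ y, (μ₁ y - μ₁ ((i lB)⁻¹ y)) * (x₂ lA y + dl i f₂ lA y)) ∧
  ∀ Δ : Y → ℚ, (∀ y, Δ (π y) = Δ y) →
    ∑ y, Δ y * (g₂ y + f₂ (π⁻¹ y) - f₂ y + μ₂ y) = ∑ y, Δ y * (g₂ y + μ₂ y)

end Pool.Agent.SOR
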