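import Pool.Agent.SOR.Stmts1

/-!
# The second order relation (squad SOR): gauges, averages, the relation on `Y`

Complete proofs in the docstrings.  `≡` is congruence modulo `R`.  A gauge transformation of a cocycle `ρ`
modulo `R` by a function `f` is `ρ'(g, y) = ρ(g, y) + f(g y) - f(y)`; it does not change the values
`ρ(g, y)` with `g y = y`.
-/

open scoped BigOperators

noncomputable section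

namespace Pool.Agent.SOR

/-! ## 4. Gauges and averages -/

/-- GAU: a gauge in which `s` acts by the function `μ`.

Proof.  Choose a representative `y₀` in every orbit of `i s` and for every `y` an integer `k` with
`y = s ^ k y₀`; put `f(y) = k μ(y₀) - ρ(s ^ k, y₀)`.  Another `k'` with `s ^ k' y₀ = y` gives the same value
modulo `R`: `ρ(s ^ k', y₀) ≡ ρ(s ^ k, s ^ (k' - k) y₀) + ρ(s ^ (k' - k), y₀) ≡ ρ(s ^ k, y₀) + (k' - k) μ(y₀)`.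
So `f(s y) ≡ (k + 1) μ(y₀) - ρ(s ^ (k + 1), y₀) ≡ f(y) + μ(y₀) - ρ(s, y)`, and `μ(y₀) = μ(y)`. -/
def GauStmt : Prop := ∀ (Γ Y : Type) [Group Γ] (R : Subring ℚ) (i : Γ →* Equiv.Perm Y)
  (ρ : Γ → Y → ℚ), Cr R i ρ → ∀ (s : Γ) (μ : Y → ℚ), Hl R i ρ s μ →
  ∃ f : Y → ℚ, ∀ y, ρ s y + f (i s y) - f y - μ y ∈ R

/-- INV: exactly invariant lifts.

Proof.  Choose a representative in every orbit of `s` and put `f'(y) = f(representative of y)`. -/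
def InvStmt : Prop := ∀ (Y : Type) (R : Subring ℚ) (s : Equiv.Perm Y) (f : Y → ℚ),
  (∀ y, f (s y) - f y ∈ R) → ∃ f' : Y → ℚ, (∀ y, f' (s y) = f' y) ∧ ∀ y, f' y - f y ∈ R

/-- AVE: averages over the orbits of two commuting permutations.

Proof.  `av f (y) = (1 / (m n)) ∑_(k < m) ∑_(l < n) f(s ^ k t ^ l y)`, `m`, `n` the orders of `s` and `t`.
(i) invariance: shift `k` or `l` cyclically.  (ii) if `f` is invariant under `s` and `t` then `av f = f`.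
(iii) for all `k`, `l`: `∑ f(y) g(y) = ∑ f(s ^ k t ^ l y) g(s ^ k t ^ l y) = ∑ f(t ^ l y) g(s ^ k y)` (`f` is invariant
under `s`, `g` under `t`, `s t = t s`); the average over `k` and `l` is
`∑ ((1/n) ∑_l f(t ^ l y)) ((1/m) ∑_k g(s ^ k y)) = ∑ av f(y) av g(y)`.  (iv) let `f` be invariant under `s` and
`s ^ k t ^ l y = y`, `l` a natural number: `u(j) = f(t ^ j y)` is a function of `j` with period `l`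
(`f(t ^ (j + l) y) = f(t ^ j s ^ (-k) y) = f(t ^ j y)`) and with period `n`; so
`n ∑_(j < l) u(j) = l ∑_(j < n) u(j)` (both are the sum over `n l` consecutive terms), and
`av f(y) = (1/n) ∑_(j < n) u(j)`.  (v) linearity and `av (g ∘ s) = av g` (reindex). -/
def AveStmt : Prop := ∀ (Y : Type) [Fintype Y] (s t : Equiv.Perm Y), s * t = t * s →
  (∀ (f : Y → ℚ) y, av s t f (s y) = av s t f y ∧ av s t f (t y) = av s t f y) ∧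
  (∀ f : Y → ℚ, (∀ y, f (s y) = f y) → (∀ y, f (t y) = f y) → ∀ y, av s t f y = f y) ∧
  (∀ f g : Y → ℚ, (∀ y, f (s y) = f y) → (∀ y, g (t y) = g y) →
    ∑ y, f y * g y = ∑ y, av s t f y * av s t g y) ∧
  (∀ f : Y → ℚ, (∀ y, f (s y) = f y) → ∀ y (k : ℤ) (l : ℕ), (s ^ k * t ^ l) y = y →
    ∑ j ∈ Finset.range l, f ((t ^ j) y) = l * av s t f y) ∧
  (∀ (f g : Y → ℚ) y, av s t (fun z => f z + g z) y = av s t f y + av s t g y) ∧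
  (∀ (f : Y → ℚ) y, av s t (fun z => - f z) y = - av s t f y) ∧
  ∀ (f : Y → ℚ) y, av s t (fun z => f (s z)) y = av s t f y ∧
    av s t (fun z => f (t z)) y = av s t f y

/-- HOL: exact pairs from averages.

Proof.  `av θ` is invariant under `s` and `t` (AVE).  Let `s ^ k t ^ l y = y`.  If `l ≥ 0`:
`ρ(s ^ k t ^ l, y) ≡ ρ(s ^ k, t ^ l y) + ρ(t ^ l, y) ≡ k p(y) + ∑_(j < l) θ(t ^ j y) = k p(y) + l av θ(y)` (AVE (iv)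
for `f = θ`).  If `l < 0` apply this to the inverse element `s ^ (-k) t ^ (-l)`:
`ρ(g⁻¹, y) ≡ - ρ(g, y)` for `g y = y`. -/
def HolStmt : Prop := ∀ (Γ Y : Type) [Group Γ] [Fintype Y] (R : Subring ℚ)
  (i : Γ →* Equiv.Perm Y) (ρ : Γ → Y → ℚ), Cr R i ρ → ∀ (s t : Γ), s * t = t * s →
  ∀ p θ : Y → ℚ, (∀ y, p (i s y) = p y) → (∀ y, p (i t y) = p y) → (∀ y, ρ s y - p y ∈ R) →
  (∀ y, θ (i s y) = θ y) → (∀ y, ρ t y - θ y ∈ R) → Ex R i ρ s t p (av (i s) (i t) θ)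

/-- IND: the independence lemma.

Proof.  (i) If `F` is a function on a finite set, invariant under a permutation `s`, and
`n(z) F(z) ∈ R` for all `z`, `n(z)` the length of the `s`-cycle of `z`, then `∑ F ∈ R`: the sum over a cycle is
`n(z) F(z)`.  (ii) Let `Y'` be the set of the `t`-cycles of `Y`, `n_t(z)` the length of the cycle of `z`.
`∑_Y ε ζ = ∑_(Y') n_t ε ζ`, `s` permutes `Y'`; if `k > 0` is the length of the `s`-cycle of the class of `z` in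
`Y'` then `s ^ k t ^ l z = z` for some `l`, so `k ε(z) ∈ R`, and `n_t(z) ζ(z) ∈ R`; so
`k (n_t ε ζ)(z) ∈ R` and (i) applies to `F = n_t ε ζ` on `Y'`. -/
def IndStmt : Prop := ∀ (Y : Type) [Fintype Y] (R : Subring ℚ) (s t : Equiv.Perm Y),
  s * t = t * s → ∀ ε ζ : Y → ℚ, (∀ y, ε (s y) = ε y) → (∀ y, ε (t y) = ε y) →
  (∀ y, ζ (s y) = ζ y) → (∀ y, ζ (t y) = ζ y) →
  (∀ y (k l : ℤ), (s ^ k * t ^ l) y = y → k * ε y ∈ R) →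
  (∀ y (l : ℤ), (t ^ l) y = y → l * ζ y ∈ R) → ∑ y, ε y * ζ y ∈ R

/-! ## 5. The relation on `Y` -/

/-- TWE: `12 τ(a)` for a set with an action of `B₄`, in the gauge in which `T` acts by `κ`.

Proof.  `i' = i ∘ j`, `x_k w ≡ ρ_k(j w)` for all `w` (LFT (ii)).  `T = C T*`, `T*` acts trivially on `Y` and
`T` commutes with `a`, `b` (braid relation: `(a b) ^ 3` is central in `⟨a, b⟩`), and `i C = i T`.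
`ρ_k(C, y) ≡ ρ_k(T, y) - ρ_k(T*, y) ≡ κ_k(y) - r_k = h_k(y)` (`C = T T*⁻¹`).  `κ_k` is invariant under `a`, `b`,
so under `T` and `C`: `Bs`.  For `g = a, b` with the automorphism `φ = pa, pb`: `g j(w) g⁻¹ = j(φ w)`
(`r2 - r5`, `hom_ext`), `tw φ (i g) x_k (w, y) = x_k(φ⁻¹ w, g⁻¹ y) ≡ ρ_k(g⁻¹ j(w) g, g⁻¹ y) ≡
ρ_k(g⁻¹, w y) + ρ_k(w, y) - ρ_k(g⁻¹, y)`, so `tr` holds for every function `g_k ≡ ρ_k(g⁻¹, ·)`; these are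
invariant under `C` modulo `R`: `ρ_k(g⁻¹ T, y) ≡ ρ_k(T g⁻¹, y)` gives `ρ_k(g⁻¹, T y) + κ_k(y) ≡
κ_k(g⁻¹ y) + ρ_k(g⁻¹, y)`.  Take exactly invariant lifts for `b` (INV).  The hypotheses of TAB about the
third components are the cocycle relation for `(a b a)⁻¹ = (b a b)⁻¹` and for `T⁻¹ = ((a b)⁻¹) ^ 6`:
`ρ(T⁻¹, y) ≡ ∑_(k < 6) ρ((a b)⁻¹, (a b)^(-k) y)` and `ρ_k(T⁻¹, y) ≡ - κ_k(y)`.  TAB. -/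
def TweStmt : Prop := ∀ (Γ Y : Type) [Group Γ] [Fintype Y] (R : Subring ℚ) (D : Bd Γ)
  (i : Γ →* Equiv.Perm Y), i D.Ts = 1 → ∀ (ρ₁ ρ₂ : Γ → Y → ℚ), Cr R i ρ₁ → Cr R i ρ₂ →
  ∀ (r₁ r₂ : ℚ) (κ₁ κ₂ : Y → ℚ), (∀ y, ρ₁ D.Ts y - r₁ ∈ R) → (∀ y, ρ₂ D.Ts y - r₂ ∈ R) →
  (∀ y, ρ₁ D.T y - κ₁ y ∈ R) → (∀ y, ρ₂ D.T y - κ₂ y ∈ R) → (∀ y, κ₁ (i D.a y) = κ₁ y) →
  (∀ y, κ₁ (i D.b y) = κ₁ y) → (∀ y, κ₂ (i D.a y) = κ₂ y) → (∀ y, κ₂ (i D.b y) = κ₂ y) →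
  ∀ x₁ x₂ : Fr → Y → ℚ, Cx (i.comp D.j) x₁ → Cx (i.comp D.j) x₂ →
  (∀ y, x₁ lA y - ρ₁ D.A y ∈ R) → (∀ y, x₁ lB y - ρ₁ D.B y ∈ R) →
  (∀ y, x₂ lA y - ρ₂ D.A y ∈ R) → (∀ y, x₂ lB y - ρ₂ D.B y ∈ R) →
  Bs R (i.comp D.j) x₁ x₂ (fun y => κ₁ y - r₁) (fun y => κ₂ y - r₂) ∧
  ∀ g₁ g₂ : Y → ℚ, (∀ y, g₁ y - ρ₁ D.a⁻¹ y ∈ R) → (∀ y, g₂ y - ρ₂ D.a⁻¹ y ∈ R) →
  (∀ y, g₂ (i D.C y) = g₂ y) →
  12 * tau (i.comp D.j) x₁ x₂ (fun y => κ₁ y - r₁) (fun y => κ₂ y - r₂) pa (i D.a) g₁ g₂ -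
    ∑ y, (κ₁ y * κ₂ y - r₁ * r₂) ∈ R

/-- OOA: the sum over the orbits of `⟨a, a₃⟩`.

Proof.  `B a B⁻¹ = a₃` (`r3`: `a B = A B a`, so `B a = A⁻¹ a B = a₃ B`), `B A' B⁻¹ = A`, `a` commutes with
`A`, `A'` (`r2`, `r3`); so `ν_k(y) = μ_k(B⁻¹ y)` is invariant under `a₃`, `A`, and `μ_k`, `ν_k` are both
invariant under `a`, `a₃`, `A`.  `χ(w) = Ψ(B⁻¹ w)` is invariant under `a₃`, `ξ` under `a`.  Substituting `w = B y`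
the first sum is `∑ (μ₂ - ν₂ - ξ) χ - ∑ (μ₁ - ν₁) ξ`, and by AVE (ii), (iii) (for `a`, `a₃`; write `X, K` for
the averages of `ξ`, `χ`) it is `∑ (μ₂ - ν₂ - X) K - ∑ (μ₁ - ν₁) X = - ∑ [(μ₁ - ν₁)(μ₂ - ν₂) + η₀ ζ₀]`,
`η₀ = μ₁ - ν₁ + K`, `ζ₀ = ν₂ - μ₂ + X`.
Exact pairs: (a) label 2, HOL with `s = a`, `p = μ₂`, `t = a₃ = A⁻¹ a`: `ρ₂(a₃, y) ≡ ρ₂(A⁻¹, a y) + μ₂(y) ≡
- ρ₂(A, A⁻¹ a y) + μ₂(y) ≡ μ₂(y) - ξ(a₃ y) = θ(y)`, invariant under `a`; `av θ = μ₂ - X = ν₂ - ζ₀`.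
(b) label 1: let `ρ'''(g, w) = ρ₁(B⁻¹ g B, B⁻¹ w)`, a cocycle with the same values as `ρ₁` at the `(g, w)`
with `g w = w`.  HOL with `s = a₃`, `ρ'''(a₃, w) = ρ₁(a, B⁻¹ w) ≡ ν₁(w)`, `t = a`: `B⁻¹ a B = B⁻¹ A a₃ B = A' a`,
`ρ'''(a, w) = ρ₁(A' a, z) ≡ ρ₁(A', a z) + μ₁(z)`, `z = B⁻¹ w`, `ρ₁(A', a z) ≡ ρ₁(A', z)` (`a A' = A' a`, `ρ₁(a, ·) ≡ μ₁`
invariant under `A'`) `≡ - ρ₁(A'⁻¹, A' z) ≡ - Ψ(A' z) = - χ(A w)`; `θ(w) = ν₁(w) - χ(A w)` is invariant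
under `a₃`, `av θ = ν₁ - K = μ₁ - η₀` (AVE (v): `A = a a₃⁻¹`, averages are not changed).
So `(ν₁ - K, ν₁)` is exact for `(a, a₃)`, `ρ₁` (exchange the two elements).
Independence: `∑ η ζ - ∑ η₀ ζ₀ = ∑ (η - η₀) ζ + ∑ η₀ (ζ - ζ₀)`, both in `R` by IND.  First:
`a ^ k a₃ ^ l y = y` gives `k (η - η₀) ∈ R` (two exact pairs with the same second entry); `a₃ ^ l y = y` gives
`l (ν₂ - ζ) ≡ ρ₂(a₃ ^ l, y) ≡ ρ₂(a ^ l, B⁻¹ y) ≡ l ν₂(y)`, so `l ζ ∈ R`.  Second (exchange `s`, `t`): `l (ζ - ζ₀) ∈ R` and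
for `a ^ k y = y`: `k (μ₁ - η₀) ≡ ρ₁(a ^ k, y) ≡ k μ₁`, `k η₀ ∈ R`. -/
def OoaStmt : Prop := ∀ (Γ Y : Type) [Group Γ] [Fintype Y] (R : Subring ℚ) (D : Bd Γ)
  (i : Γ →* Equiv.Perm Y) (ρ₁ ρ₂ : Γ → Y → ℚ), Cr R i ρ₁ → Cr R i ρ₂ →
  ∀ μ₁ μ₂ : Y → ℚ, (∀ y, μ₁ (i D.a y) = μ₁ y) → (∀ y, μ₁ (i D.A y) = μ₁ y) →
  (∀ y, μ₁ (i D.A' y) = μ₁ y) → (∀ y, μ₂ (i D.a y) = μ₂ y) → (∀ y, μ₂ (i D.A y) = μ₂ y) →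
  (∀ y, μ₂ (i D.A' y) = μ₂ y) → (∀ y, ρ₁ D.a y - μ₁ y ∈ R) → (∀ y, ρ₂ D.a y - μ₂ y ∈ R) →
  ∀ ξ Ψ : Y → ℚ, (∀ y, ξ (i D.a y) = ξ y) → (∀ y, ρ₂ D.A y - ξ y ∈ R) →
  (∀ y, Ψ (i D.a y) = Ψ y) → (∀ y, ρ₁ D.A'⁻¹ y - Ψ y ∈ R) →
  ∀ η ζ : Y → ℚ,
  Ex R i ρ₁ D.a D.a3 (fun y => μ₁ y - η y) (fun y => μ₁ (i D.B⁻¹ y)) →
  Ex R i ρ₂ D.a D.a3 μ₂ (fun y => μ₂ (i D.B⁻¹ y) - ζ y) →
  ∑ y, (μ₂ (i D.B y) - μ₂ y - ξ (i D.B y)) * Ψ y - ∑ y, (μ₁ y - μ₁ (i D.B⁻¹ y)) * ξ y +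
    ∑ y, ((μ₁ y - μ₁ (i D.B⁻¹ y)) * (μ₂ y - μ₂ (i D.B⁻¹ y)) + η y * ζ y) ∈ R

/-- OOT: the sum over the orbits of `⟨a, T⟩`.

Proof.  `a T = T a` (TWE).  `∑ Δ (g + μ₂) = ∑ av Δ (av g + μ₂)` (AVE (ii), (iii) for `s = a`, `t = T`: `Δ` is
invariant under `a`, `g + μ₂` under `T`; `μ₂` under both).  Exact pairs: HOL with `s = a`, `p = μ₁`, `t = T`,
`θ = κ₁ + Δ`: `(μ₁, κ₁ + av Δ)` for `ρ₁`.  HOL with `s = T`, `p = κ₂`, `t = a`, `θ(y) = - g(a y)`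
(`ρ₂(a, y) ≡ - ρ₂(a⁻¹, a y)`; invariant under `T`): `(- av g, κ₂)` for `(a, T)` and `ρ₂` (AVE (v)).
`∑ av Δ (μ₂ + av g) - ∑ (μ₂ - m) δ = ∑ (av Δ - δ)(μ₂ + av g) + ∑ δ (av g + m)`.  IND: for the first sum
`a ^ k T ^ l y = y` gives `l (av Δ - δ) ∈ R` and `a ^ k y = y` gives `k (- av g) ≡ ρ₂(a ^ k, y) ≡ k μ₂`; for the
second `a ^ k T ^ l y = y` gives `k (m + av g) ∈ R` and `T ^ l y = y` gives `l (κ₁ + δ) ≡ ρ₁(T ^ l, y) ≡ l κ₁`. -/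
def OotStmt : Prop := ∀ (Γ Y : Type) [Group Γ] [Fintype Y] (R : Subring ℚ) (D : Bd Γ)
  (i : Γ →* Equiv.Perm Y) (ρ₁ ρ₂ : Γ → Y → ℚ), Cr R i ρ₁ → Cr R i ρ₂ →
  ∀ μ₁ μ₂ κ₁ κ₂ : Y → ℚ, (∀ y, μ₁ (i D.a y) = μ₁ y) → (∀ y, μ₁ (i D.T y) = μ₁ y) →
  (∀ y, μ₂ (i D.T y) = μ₂ y) → (∀ y, κ₁ (i D.a y) = κ₁ y) → (∀ y, κ₂ (i D.a y) = κ₂ y) →
  (∀ y, κ₂ (i D.T y) = κ₂ y) → (∀ y, ρ₁ D.a y - μ₁ y ∈ R) → Hl R i ρ₂ D.a μ₂ →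
  Hl R i ρ₁ D.T κ₁ → (∀ y, ρ₂ D.T y - κ₂ y ∈ R) →
  ∀ Δ g : Y → ℚ, (∀ y, Δ (i D.a y) = Δ y) → (∀ y, ρ₁ D.T y - (κ₁ y + Δ y) ∈ R) →
  (∀ y, g (i D.T y) = g y) → (∀ y, ρ₂ D.a⁻¹ y - g y ∈ R) →
  ∀ δ m : Y → ℚ, Ex R i ρ₁ D.a D.T μ₁ (fun y => κ₁ y + δ y) → Ex R i ρ₂ D.a D.T m κ₂ →
  ∑ y, Δ y * (g y + μ₂ y) - ∑ y, (μ₂ y - m y) * δ y ∈ R

/-- REL: THE SECOND ORDER RELATION.

Proof.  All hypotheses are about the values `ρ(g, y)` with `g y = y`, so gauge transformations are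
allowed.  (1) GAU for `T`, `κ_k`: we may assume `ρ_k(T, y) ≡ κ_k(y)` (gauge T; `ρ_k(T*, ·) ≡ r_k` is not
changed).  (2) GAU for `a`, `μ_k`: `f_k` such that `ρ'_k(g, y) = ρ_k(g, y) + f_k(g y) - f_k(y)` has
`ρ'_k(a, ·) ≡ μ_k`.  `a` commutes with `A`, `A'`, `C`, and `μ_k` is invariant under them, so `ρ'_k(s, a y) ≡
ρ'_k(s, y)` for `s = A, A'⁻¹, C`.  (3) INV: `ξ ≡ ρ'₂(A, ·)`, `Ψ ≡ ρ'₁(A'⁻¹, ·)`, `Δ ≡ ρ'₁(C, ·) - (κ₁ - r₁)`, exactly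
invariant under `a`; `g₂ ≡ ρ₂(a⁻¹, ·)` exactly invariant under `C` (see TWE), that is under `T`.
(4) LFT: exact cocycles `x₁`, `x₂` of the free group with `x₁(A) = ρ₁(A)`, `x₁(B) = ρ₁(B)`,
`x₂(A, y) = ξ(y) - f₂(A y) + f₂(y)`, `x₂(B) = ρ₂(B)`.  (5) TWE with `g₁(y) = - μ₁(y) - f₁(a⁻¹ y) + f₁(y) ≡
ρ₁(a⁻¹, y)`: `12 τ(a) ≡ ∑ (κ₁ κ₂ - r₁ r₂)`.  (6) `Nd` holds with `h_k = κ_k - r_k`: `m_k` says `x'_k(a⁻¹ w a, a⁻¹ y) ≡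
x'_k(w, y) - μ_k(w y) + μ_k(y)`, the transport of `ρ'_k` by `a`; `gr`: `g₂ ≡ ρ₂(a⁻¹, ·)`,
`ρ'₂(a⁻¹, y) ≡ - μ₂(y)`.  NDI, NDJ, NDK:
`τ(a) ≡ ∑ (μ₂(B y) - μ₂(y) - ξ(B y)) Ψ(y) - ∑ (μ₁ - ν₁) ξ + ∑ (h₁ μ₂ + μ₁ h₂) + ∑ Δ (g₂ + μ₂)`.
(7) OOA for `ρ'₁`, `ρ'₂` and OOT for `ρ'₁`, `ρ₂` (gauge T): the first two sums are
`≡ - ∑ [(μ₁ - ν₁)(μ₂ - ν₂) + η ζ]`, the last is `≡ ∑ (μ₂ - m) δ`.
(`ρ'₁(T, y) ≡ ρ'₁(C, y) + r₁ ≡ κ₁(y) + Δ(y)`.)  Multiply by `- 12`. -/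
def RelStmt : Prop := ∀ (Γ Y : Type) [Group Γ] [Fintype Y] (R : Subring ℚ) (D : Bd Γ)
  (i : Γ →* Equiv.Perm Y), i D.Ts = 1 → ∀ (ρ₁ ρ₂ : Γ → Y → ℚ), Cr R i ρ₁ → Cr R i ρ₂ →
  ∀ (r₁ r₂ : ℚ) (κ₁ κ₂ μ₁ μ₂ η ζ δ m : Y → ℚ), (∀ y, ρ₁ D.Ts y - r₁ ∈ R) →
  (∀ y, ρ₂ D.Ts y - r₂ ∈ R) → Hl R i ρ₁ D.T κ₁ → Hl R i ρ₂ D.T κ₂ →
  (∀ y, κ₁ (i D.a y) = κ₁ y) → (∀ y, κ₁ (i D.b y) = κ₁ y) → (∀ y, κ₂ (i D.a y) = κ₂ y) →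
  (∀ y, κ₂ (i D.b y) = κ₂ y) → Hl R i ρ₁ D.a μ₁ → Hl R i ρ₂ D.a μ₂ →
  (∀ y, μ₁ (i D.A y) = μ₁ y) → (∀ y, μ₁ (i D.A' y) = μ₁ y) → (∀ y, μ₂ (i D.A y) = μ₂ y) →
  (∀ y, μ₂ (i D.A' y) = μ₂ y) →
  Ex R i ρ₁ D.a D.a3 (fun y => μ₁ y - η y) (fun y => μ₁ (i D.B⁻¹ y)) →
  Ex R i ρ₂ D.a D.a3 μ₂ (fun y => μ₂ (i D.B⁻¹ y) - ζ y) →
  Ex R i ρ₁ D.a D.T μ₁ (fun y => κ₁ y + δ y) → Ex R i ρ₂ D.a D.T m κ₂ →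
  ∑ y, (r₁ * r₂ - κ₁ y * κ₂ y) -
    12 * ∑ y, ((μ₁ y - μ₁ (i D.B⁻¹ y)) * (μ₂ y - μ₂ (i D.B⁻¹ y)) + η y * ζ y -
      (μ₂ y - m y) * δ y + (r₁ - κ₁ y) * μ₂ y + μ₁ y * (r₂ - κ₂ y)) ∈ R

end Pool.Agent.SOR
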